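import Pool.Agent.Lib_MP_c281c2_p.Half

/-!
# MP_c281c2_an, file P4: the half plane lemma in the variable `z`
-/

namespace MPc281p

open Complex Metric Set Real MeasureTheory Filter Topology

/-- Touching is invariant under holomorphic changes of the variable. -/
theorem Touch.comp {W : ℂ → ℝ} {φ : ℂ → ℂ} {e0 : ℂ}
    (hφ : ∀ᶠ e in 𝓝 e0, DifferentiableAt ℂ φ e) (h : Touch W (φ e0)) :
    Touch (fun e => W (φ e)) e0 := by
  obtain ⟨F, r, K, hr, hF, hF0, hFW⟩ := h
  have hd0 : DifferentiableAt ℂ φ e0 := hφ.self_of_nhds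
  have hO := hd0.isBigO_sub
  obtain ⟨L, hL⟩ := hO.bound
  have hb : ∀ᶠ e in 𝓝 e0, φ e ∈ ball (φ e0) r :=
    hd0.continuousAt.eventually (ball_mem_nhds _ hr)
  obtain ⟨r', hr', hball⟩ := Metric.eventually_nhds_iff_ball.mp (hφ.and (hL.and hb))
  refine ⟨fun e => F (φ e), r', |K| * |L| ^ 3, hr', ?_, hF0, ?_⟩
  · intro e he
    obtain ⟨h1, _, h3⟩ := hball e he
    have hFat : DifferentiableAt ℂ F (φ e) := hF.differentiableAt (isOpen_ball.mem_nhds h3)
    exact (DifferentiableAt.comp e hFat h1).differentiableWithinAt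
  · intro e he
    obtain ⟨_, h2, h3⟩ := hball e he
    have h4 := hFW _ h3
    have h5 : ‖φ e - φ e0‖ ≤ |L| * ‖e - e0‖ :=
      h2.trans (mul_le_mul_of_nonneg_right (le_abs_self L) (norm_nonneg _))
    have h6 : K * ‖φ e - φ e0‖ ^ 3 ≤ |K| * |L| ^ 3 * ‖e - e0‖ ^ 3 := by
      calc K * ‖φ e - φ e0‖ ^ 3 ≤ |K| * ‖φ e - φ e0‖ ^ 3 :=
            mul_le_mul_of_nonneg_right (le_abs_self K) (by positivity)
        _ ≤ |K| * (|L| * ‖e - e0‖) ^ 3 := by
            apply mul_le_mul_of_nonneg_left _ (abs_nonneg K)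
            exact pow_le_pow_left₀ (norm_nonneg _) h5 3
        _ = |K| * |L| ^ 3 * ‖e - e0‖ ^ 3 := by ring
    show (F (φ e)).re - _ ≤ W (φ e)
    linarith

theorem im_neg_inv (e : ℂ) (he : 0 ≤ e.im) (q : ℝ) : 0 ≤ (-(q : ℂ) - 1 / e).im := by
  have : (-(q : ℂ) - 1 / e).im = e.im / Complex.normSq e := by
    simp [Complex.inv_im, neg_div]
  rw [this]
  exact div_nonneg he (Complex.normSq_nonneg e)

theorem halfplane {W : ℂ → ℝ} {q a C κ : ℝ} (hq : 0 < q) (ha : 1 < a)
    (hc : ContinuousOn W {z | 0 ≤ z.im}) (ht : ∀ z, 0 < z.im → Touch W z)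
    (hneg : ∀ x : ℝ, x ≤ -q → W x = 0) (hpos : ∀ x : ℝ, 0 ≤ x → W x = 0)
    (hb : ∀ z, 0 ≤ z.im → |W z| ≤ C * ‖z + q‖ ^ a)
    (hk : ∀ z, 0 ≤ z.im → κ ≤ ‖z‖ → W z = 0) :
    0 ≤ ∫ y in (0 : ℝ)..q, W (-(y : ℂ)) / (q - y) ^ 2 := by
  let V : ℂ → ℝ := fun e => W (-(q : ℂ) - 1 / e)
  have hC : 0 ≤ C := by
    have h1 := hb (1 - q) (by simp)
    have h2 : (1 : ℂ) - q + q = 1 := by ring
    rw [h2, norm_one, Real.one_rpow, mul_one] at h1
    exact (abs_nonneg _).trans h1
  have hWq : W (-(q : ℂ)) = 0 := by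
    have h1 := hneg (-q) le_rfl
    push_cast at h1
    exact h1
  -- radius where V vanishes
  let ρ : ℝ := 1 / (q + |κ| + 1)
  have hρ : 0 < ρ := by positivity
  have hV0 : ∀ e : ℂ, 0 ≤ e.im → ‖e‖ ≤ ρ → V e = 0 := by
    intro e he hen
    by_cases he0 : e = 0
    · simp only [V, he0]
      simpa using hWq
    apply hk _ (im_neg_inv e he q)
    have h1 : 0 < ‖e‖ := norm_pos_iff.mpr he0
    have h2 : q + |κ| + 1 ≤ 1 / ‖e‖ := by
      rw [le_div_iff₀ h1]
      calc (q + |κ| + 1) * ‖e‖ ≤ (q + |κ| + 1) * ρ :=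
            mul_le_mul_of_nonneg_left hen (by positivity)
        _ = 1 := by simp only [ρ]; field_simp
    have h3 : ‖(1 : ℂ) / e‖ - ‖(q : ℂ)‖ ≤ ‖-(q : ℂ) - 1 / e‖ := by
      have := norm_sub_norm_le ((1 : ℂ) / e) (-(q : ℂ))
      rw [norm_neg] at this
      have h4 : ‖(1 : ℂ) / e - -(q : ℂ)‖ = ‖-(q : ℂ) - 1 / e‖ := by
        rw [← norm_neg]; congr 1; ring
      rw [h4] at this
      exact this
    rw [norm_div, norm_one, Complex.norm_real, Real.norm_eq_abs, abs_of_pos hq] at h3
    have := le_abs_self κ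
    linarith
  have hVc : ContinuousOn V {e | 0 ≤ e.im} := by
    intro e he
    by_cases he0 : e = 0
    · subst he0
      have h1 : V 0 = 0 := hV0 0 (by simp) (by simpa using hρ.le)
      have h2 : ∀ᶠ e in 𝓝[{e : ℂ | 0 ≤ e.im}] (0 : ℂ), V e = 0 := by
        have h3 : ∀ᶠ e in 𝓝[{e : ℂ | 0 ≤ e.im}] (0 : ℂ), e ∈ ball (0 : ℂ) ρ :=
          mem_nhdsWithin_of_mem_nhds (ball_mem_nhds _ hρ)
        filter_upwards [h3, self_mem_nhdsWithin] with e h4 h5
        apply hV0 e h5
        rw [mem_ball_zero_iff] at h4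
        exact h4.le
      show Tendsto V _ (𝓝 (V 0))
      rw [h1]
      exact tendsto_const_nhds.congr' (by filter_upwards [h2] with e h4 using h4.symm)
    · have h1 : ContinuousAt (fun e : ℂ => -(q : ℂ) - 1 / e) e := by
        have := continuousAt_inv₀ he0
        simp only [one_div]
        fun_prop (disch := exact he0)
      have h2 : ContinuousWithinAt W {z | 0 ≤ z.im} (-(q : ℂ) - 1 / e) :=
        hc _ (im_neg_inv e he q)
      exact ContinuousWithinAt.comp (f := fun e : ℂ => -(q : ℂ) - 1 / e) (g := W) h2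
        h1.continuousWithinAt (fun e' he' => im_neg_inv e' he' q)
  have hVt : ∀ e, 0 < e.im → Touch V e := by
    intro e he
    have he0 : e ≠ 0 := by
      rintro rfl
      simp at he
    apply Touch.comp
    · filter_upwards [isOpen_ne.mem_nhds he0] with e' he'
      have h1 : e' ≠ 0 := he'
      fun_prop (disch := exact h1)
    · apply ht
      have : (-(q : ℂ) - 1 / e).im = e.im / Complex.normSq e := by
        simp [Complex.inv_im, neg_div]
      rw [this]
      exact div_pos he (Complex.normSq_pos.mpr he0)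
  -- decay
  let D : ℝ := C * ((1 + ρ) / ρ) ^ a
  have hVb : ∀ e, 0 ≤ e.im → |V e| ≤ D * (1 + ‖e‖) ^ (-a) := by
    intro e he
    by_cases hen : ‖e‖ ≤ ρ
    · rw [hV0 e he hen, abs_zero]
      positivity
    · push Not at hen
      have hpos' : 0 < ‖e‖ := hρ.trans hen
      have he0 : e ≠ 0 := norm_pos_iff.mp hpos'
      have h1 := hb _ (im_neg_inv e he q)
      have h2 : -(q : ℂ) - 1 / e + q = -(1 / e) := by ring
      rw [h2, norm_neg, norm_div, norm_one] at h1
      refine h1.trans ?_
      simp only [D]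
      rw [mul_assoc]
      apply mul_le_mul_of_nonneg_left _ hC
      rw [Real.rpow_neg (by positivity), ← Real.inv_rpow (by positivity),
        ← Real.mul_rpow (by positivity) (by positivity)]
      apply Real.rpow_le_rpow (by positivity) _ (by linarith)
      rw [div_mul_eq_mul_div, le_div_iff₀ hρ, ← div_eq_mul_inv, div_mul_eq_mul_div, one_mul,
        div_le_div_iff₀ hpos' (by positivity)]
      nlinarith
  have hI := halfplane_V ha hVc hVt hVb
  -- change of variables
  have hsupp : ∀ u : ℝ, u ∉ Iio (-(1 / q)) → V u = 0 := by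
    intro u hu
    simp only [mem_Iio, not_lt] at hu
    have e1 : -(q : ℂ) - 1 / (u : ℂ) = ((-q - 1 / u : ℝ) : ℂ) := by push_cast; ring
    rcases lt_trichotomy u 0 with h | h | h
    · simp only [V]
      rw [e1]
      apply hpos
      have h1 : q ≤ 1 / (-u) := by
        rw [le_div_iff₀ (by linarith)]
        have h2 : -u ≤ 1 / q := by linarith
        calc q * -u ≤ q * (1 / q) := mul_le_mul_of_nonneg_left h2 hq.le
          _ = 1 := by field_simp
      have h3 : 1 / (-u) = -(1 / u) := by rw [one_div, one_div, inv_neg]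
      rw [h3] at h1
      linarith
    · subst h
      exact hV0 _ (by simp) (by simp [hρ.le])
    · simp only [V]
      rw [e1]
      apply hneg
      have : 0 < 1 / u := by positivity
      linarith
  have hint : ∫ u : ℝ, V u = ∫ u in Iio (-(1 / q)), V u := by
    rw [← integral_indicator measurableSet_Iio]
    congr 1
    ext u
    by_cases hu : u ∈ Iio (-(1 / q))
    · rw [indicator_of_mem hu]
    · rw [indicator_of_notMem hu, hsupp u hu]
  have himg : (fun y : ℝ => -(1 / (q - y))) '' Ioo 0 q = Iio (-(1 / q)) := by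
    ext u
    constructor
    · rintro ⟨y, ⟨hy0, hyq⟩, rfl⟩
      simp only [mem_Iio, neg_lt_neg_iff]
      apply one_div_lt_one_div_of_lt (by linarith) (by linarith)
    · intro hu
      simp only [mem_Iio] at hu
      have hu0 : u < 0 := hu.trans (by have : 0 < 1 / q := by positivity
                                       linarith)
      have h1 : 0 < 1 / (-u) := by
        apply div_pos one_pos; linarith
      refine ⟨q - 1 / (-u), ⟨?_, by linarith⟩, ?_⟩
      · have : 1 / (-u) < q := by
          rw [div_lt_iff₀ (by linarith)]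
          have h2 : 1 / q < -u := by linarith
          calc (1 : ℝ) = q * (1 / q) := by field_simp
            _ < q * -u := mul_lt_mul_of_pos_left h2 hq
        linarith
      · simp only
        rw [show q - (q - 1 / (-u)) = 1 / (-u) by ring, one_div_one_div]
        ring
  have hcv : ∫ u in Iio (-(1 / q)), V u = ∫ y in Ioo 0 q, W (-(y : ℂ)) / (q - y) ^ 2 := by
    rw [← himg]
    rw [integral_image_eq_integral_abs_deriv_smul (f' := fun y => -(1 / (q - y) ^ 2))
      measurableSet_Ioo]
    · apply setIntegral_congr_fun measurableSet_Ioo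
      intro y hy
      have hy' : 0 < q - y := by linarith [hy.2]
      simp only [smul_eq_mul, V]
      rw [abs_neg, abs_of_pos (by positivity)]
      have e1 : -(q : ℂ) - 1 / ((-(1 / (q - y)) : ℝ) : ℂ) = -(y : ℂ) := by
        have : ((q : ℂ) - y) ≠ 0 := by exact_mod_cast hy'.ne'
        push_cast
        field_simp
        ring
      rw [e1]
      ring
    · intro y hy
      have hy' : q - y ≠ 0 := by
        have := hy.2
        linarith
      have h1 : HasDerivAt (fun y : ℝ => q - y) (-1) y := by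
        simpa using (hasDerivAt_id y).const_sub q
      have h2 := (h1.inv hy').neg
      apply HasDerivAt.hasDerivWithinAt
      refine (h2.congr_deriv ?_).congr_of_eventuallyEq ?_
      · ring
      · filter_upwards with y'
        simp
    · intro y hy y' hy' h
      simp only at h
      have h1 : 0 < q - y := by linarith [hy.2]
      have h2 : 0 < q - y' := by linarith [hy'.2]
      have h3 : 1 / (q - y) = 1 / (q - y') := by linarith
      rw [one_div, one_div, inv_inj] at h3
      linarith
  rw [intervalIntegral.integral_of_le hq.le, integral_Ioc_eq_integral_Ioo, ← hcv, ← hint]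
  exact hI

end MPc281p
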