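import Mathlib

/-!
# MP_c281c2_an, file P1: harmonic polynomials are dense on circles
-/

namespace MPc281p

open Complex Metric Set

/-- Laurent polynomials have real parts equal to real parts of entire functions on the unit
circle. -/
theorem span_fourier_re {T : ℝ} [hT : Fact (0 < T)] (f : C(AddCircle T, ℂ))
    (hf : f ∈ Submodule.span ℂ (Set.range (@fourier T))) :
    ∀ c : ℂ, ∃ G : ℂ → ℂ, Differentiable ℂ G ∧
      ∀ x : AddCircle T, (c * f x).re = (G (AddCircle.toCircle x : ℂ)).re := by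
  induction hf using Submodule.span_induction with
  | mem g hg =>
    obtain ⟨n, rfl⟩ := hg
    intro c
    rcases Int.eq_nat_or_neg n with ⟨m, rfl | rfl⟩
    · refine ⟨fun z => c * z ^ m, by fun_prop, fun x => ?_⟩
      congr 2
      rw [fourier_apply]
      simp [AddCircle.toCircle_nsmul]
    · refine ⟨fun z => (starRingEnd ℂ) c * z ^ m, by fun_prop, fun x => ?_⟩
      have h1 : (fourier (-(m : ℤ)) x : ℂ) =
          (starRingEnd ℂ) ((AddCircle.toCircle x : ℂ) ^ m) := by
        rw [fourier_neg, fourier_apply]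
        simp [AddCircle.toCircle_nsmul]
      rw [h1]
      rw [show c * (starRingEnd ℂ) ((AddCircle.toCircle x : ℂ) ^ m) =
        (starRingEnd ℂ) ((starRingEnd ℂ) c * (AddCircle.toCircle x : ℂ) ^ m) by simp]
      rw [Complex.conj_re]
  | zero =>
    intro c
    exact ⟨fun _ => 0, by fun_prop, fun x => by simp⟩
  | add g h _ _ ihg ihh =>
    intro c
    obtain ⟨G, hG, hG'⟩ := ihg c
    obtain ⟨H, hH, hH'⟩ := ihh c
    refine ⟨fun z => G z + H z, hG.add hH, fun x => ?_⟩
    rw [ContinuousMap.add_apply, mul_add, Complex.add_re, hG', hH', Complex.add_re]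
  | smul a g _ ih =>
    intro c
    obtain ⟨G, hG, hG'⟩ := ih (c * a)
    refine ⟨G, hG, fun x => ?_⟩
    rw [← hG' x]
    simp [mul_assoc]

/-- Real parts of entire functions are dense in the continuous functions on a circle. -/
theorem exists_entire_re_near {V : ℂ → ℝ} {c : ℂ} {R : ℝ} (hR : 0 < R)
    (hV : ContinuousOn V (sphere c R)) {ε : ℝ} (hε : 0 < ε) :
    ∃ G : ℂ → ℂ, Differentiable ℂ G ∧ ∀ z ∈ sphere c R, |V z - (G z).re| ≤ ε := by
  have : Fact (0 < 2 * Real.pi) := ⟨Real.two_pi_pos⟩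
  have hmap : Continuous (fun x : AddCircle (2 * Real.pi) =>
      c + R * (AddCircle.toCircle x : ℂ)) := by
    have : Continuous (fun x : AddCircle (2 * Real.pi) => (AddCircle.toCircle x : ℂ)) :=
      continuous_subtype_val.comp AddCircle.continuous_toCircle
    fun_prop
  have hmem : ∀ x : AddCircle (2 * Real.pi), c + R * (AddCircle.toCircle x : ℂ) ∈
      sphere c R := by
    intro x
    rw [mem_sphere, dist_eq_norm, add_sub_cancel_left, norm_mul, Complex.norm_real,
      Real.norm_eq_abs, abs_of_pos hR, Circle.norm_coe, mul_one]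
  have hRC : (R : ℂ) ≠ 0 := by exact_mod_cast hR.ne'
  have hcont : Continuous (fun x : AddCircle (2 * Real.pi) =>
      ((V (c + R * (AddCircle.toCircle x : ℂ)) : ℝ) : ℂ)) :=
    Complex.continuous_ofReal.comp (hV.comp_continuous hmap hmem)
  let f : C(AddCircle (2 * Real.pi), ℂ) := ⟨_, hcont⟩
  have hf : f ∈ (Submodule.span ℂ (Set.range (@fourier (2 * Real.pi)))).topologicalClosure := by
    rw [span_fourier_closure_eq_top]
    trivial
  have hf' : f ∈ closure ((Submodule.span ℂ (Set.range (@fourier (2 * Real.pi))) :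
      Submodule ℂ C(AddCircle (2 * Real.pi), ℂ)) : Set C(AddCircle (2 * Real.pi), ℂ)) := hf
  obtain ⟨g, hg, hfg⟩ := Metric.mem_closure_iff.mp hf' ε hε
  obtain ⟨G, hG, hG'⟩ := span_fourier_re g hg 1
  refine ⟨fun z => G ((z - c) / R), by fun_prop, fun z hz => ?_⟩
  have hz1 : ‖(z - c) / R‖ = 1 := by
    rw [norm_div, ← dist_eq_norm, mem_sphere.mp hz]
    simp [abs_of_pos hR, hR.ne']
  obtain ⟨x, hx⟩ : ∃ x : AddCircle (2 * Real.pi), (AddCircle.toCircle x : ℂ) = (z - c) / R := by
    refine ⟨((Complex.arg ((z - c) / R) : ℝ) : AddCircle (2 * Real.pi)), ?_⟩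
    rw [AddCircle.toCircle_apply_mk, Circle.coe_exp]
    have := Complex.norm_mul_exp_arg_mul_I ((z - c) / R)
    rw [hz1] at this
    simp only [Complex.ofReal_one, one_mul] at this
    convert this using 3
    push_cast
    field_simp
  have h1 : (g x).re = (G ((z - c) / R)).re := by
    have := hG' x
    rw [one_mul, hx] at this
    exact this
  have h2 : f x = ((V z : ℝ) : ℂ) := by
    show ((V (c + R * (AddCircle.toCircle x : ℂ)) : ℝ) : ℂ) = _
    rw [hx]
    congr 2
    rw [mul_div_cancel₀ _ hRC]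
    ring
  have h3 : ‖f x - g x‖ < ε := by
    calc ‖f x - g x‖ = ‖(f - g) x‖ := rfl
      _ ≤ ‖f - g‖ := ContinuousMap.norm_coe_le_norm _ _
      _ < ε := by rwa [← dist_eq_norm]
  have h4 : |(f x - g x).re| ≤ ‖f x - g x‖ := Complex.abs_re_le_norm _
  show |V z - (G ((z - c) / R)).re| ≤ ε
  rw [← h1]
  rw [h2] at h4 h3
  simp only [Complex.sub_re, Complex.ofReal_re] at h4
  linarith

end MPc281p
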