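import Pool.Agent.Lib_MP_c281c2_p.Sub

/-!
# MP_c281c2_an, file P3: the half plane lemma
-/

namespace MPc281p

open Complex Metric Set Real MeasureTheory Filter Topology

/-- points of the circle with centre `iR`, radius `R`, parametrised by arc length. -/
noncomputable def arc (R s : ℝ) : ℂ := I * R * (1 - Complex.exp (((s / R : ℝ) : ℂ) * I))

theorem arc_eq (R s : ℝ) : arc R s = circleMap (I * R) R (s / R - π / 2) := by
  unfold arc circleMap
  have : Complex.exp (((s / R - π / 2 : ℝ) : ℂ) * I) = Complex.exp (((s / R : ℝ) : ℂ) * I) * (-I) := by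
    have h1 : (((s / R - π / 2 : ℝ) : ℂ) * I) = ((s / R : ℝ) : ℂ) * I + (-(π / 2 * I)) := by
      push_cast; ring
    rw [h1, Complex.exp_add, Complex.exp_neg, Complex.exp_pi_div_two_mul_I]
    congr 1
    rw [Complex.inv_I]
  rw [this]
  ring

theorem norm_arc {R s : ℝ} (hR : 0 < R) : ‖arc R s‖ = 2 * R * |Real.sin (s / (2 * R))| := by
  unfold arc
  rw [norm_mul, norm_mul, Complex.norm_I, Complex.norm_real, Real.norm_eq_abs, abs_of_pos hR,
    one_mul]
  have h1 : ‖1 - Complex.exp (((s / R : ℝ) : ℂ) * I)‖ ^ 2 = (2 * Real.sin (s / (2 * R))) ^ 2 := by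
    rw [← Complex.normSq_eq_norm_sq, Complex.normSq_apply]
    simp only [Complex.sub_re, Complex.sub_im, Complex.one_re, Complex.one_im,
      Complex.exp_ofReal_mul_I_re, Complex.exp_ofReal_mul_I_im]
    have h2 : s / R = 2 * (s / (2 * R)) := by field_simp
    rw [h2, Real.cos_two_mul, Real.sin_two_mul]
    have h3 := Real.sin_sq_add_cos_sq (s / (2 * R))
    have h4 : Real.cos (s / (2 * R)) ^ 2 = 1 - Real.sin (s / (2 * R)) ^ 2 := by linarith
    ring_nf
    ring_nf at h4
    have h5 : Real.cos (s * R⁻¹ * (1 / 2)) ^ 4 = (1 - Real.sin (s * R⁻¹ * (1 / 2)) ^ 2) ^ 2 := by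
      rw [← h4]; ring
    rw [h5, h4]
    ring
  have h6 : ‖1 - Complex.exp (((s / R : ℝ) : ℂ) * I)‖ = 2 * |Real.sin (s / (2 * R))| := by
    have h7 : 2 * |Real.sin (s / (2 * R))| = |2 * Real.sin (s / (2 * R))| := by
      rw [abs_mul, abs_two]
    rw [h7, ← Real.sqrt_sq (norm_nonneg (1 - Complex.exp (((s / R : ℝ) : ℂ) * I))), h1,
      Real.sqrt_sq_eq_abs]
  rw [h6]
  ring

theorem norm_arc_ge {R s : ℝ} (hR : 0 < R) (hs : |s| ≤ π * R) : |s| / 2 ≤ ‖arc R s‖ := by
  rw [norm_arc hR]
  have h1 : |s / (2 * R)| ≤ π / 2 := by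
    rw [abs_div, abs_of_pos (by positivity : (0 : ℝ) < 2 * R), div_le_div_iff₀ (by positivity)
      (by positivity)]
    nlinarith
  have h2 : 2 / π * |s / (2 * R)| ≤ |Real.sin (s / (2 * R))| := Real.mul_abs_le_abs_sin h1
  have h3 : |s / (2 * R)| = |s| / (2 * R) := by
    rw [abs_div, abs_of_pos (by positivity : (0 : ℝ) < 2 * R)]
  have h4 : 2 * R * (2 / π * |s / (2 * R)|) = 2 / π * |s| := by
    rw [h3]; field_simp
  have h5 : 2 / π * |s| ≤ 2 * R * |Real.sin (s / (2 * R))| := by
    rw [← h4]
    exact mul_le_mul_of_nonneg_left h2 (by positivity)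
  have h6 : |s| / 2 ≤ 2 / π * |s| := by
    have : (1 : ℝ) / 2 ≤ 2 / π := by
      rw [div_le_div_iff₀ (by norm_num) Real.pi_pos]
      linarith [Real.pi_le_four]
    calc |s| / 2 = 1 / 2 * |s| := by ring
      _ ≤ 2 / π * |s| := mul_le_mul_of_nonneg_right this (abs_nonneg s)
  linarith

theorem arc_im_nonneg {R s : ℝ} (hR : 0 < R) : 0 ≤ (arc R s).im := by
  unfold arc
  have : (I * (R : ℂ) * (1 - Complex.exp (((s / R : ℝ) : ℂ) * I))).im =
      R * (1 - Real.cos (s / R)) := by
    simp only [Complex.mul_im, Complex.mul_re, Complex.I_re, Complex.I_im, Complex.ofReal_re,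
      Complex.ofReal_im, Complex.sub_re, Complex.sub_im, Complex.one_re, Complex.one_im,
      Complex.exp_ofReal_mul_I_re, Complex.exp_ofReal_mul_I_im]
    ring
  rw [this]
  have := Real.cos_le_one (s / R)
  apply mul_nonneg hR.le
  linarith

theorem tendsto_arc (s : ℝ) : Tendsto (fun n : ℕ => arc ((n : ℝ) + 1) s) atTop (𝓝 (s : ℂ)) := by
  -- derivative of exp at 0
  have h0 : HasDerivAt (fun t : ℂ => I * (s : ℂ) * 0 + I * (1 - Complex.exp (t * (s * I)))) (s : ℂ) 0 := by
    have h1 : HasDerivAt (fun t : ℂ => Complex.exp (t * (s * I))) (Complex.exp (0 * (s * I)) * (s * I)) 0 := by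
      have := (hasDerivAt_id (0 : ℂ)).mul_const ((s : ℂ) * I)
      have h := this.cexp
      simpa using h
    have h2 := ((h1.const_sub 1).const_mul I).const_add (I * (s : ℂ) * 0)
    refine h2.congr_deriv ?_
    rw [zero_mul, Complex.exp_zero]
    linear_combination (-(s : ℂ)) * Complex.I_mul_I
  have h1 := h0.tendsto_slope_zero
  have h2 : Tendsto (fun n : ℕ => (((1 / ((n : ℝ) + 1) : ℝ)) : ℂ)) atTop (𝓝[≠] 0) := by
    rw [tendsto_nhdsWithin_iff]
    constructor
    · have := (Complex.continuous_ofReal.tendsto 0).comp tendsto_one_div_add_atTop_nhds_zero_nat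
      simpa [Function.comp_def] using this
    · filter_upwards with n
      simp only [mem_compl_iff, mem_singleton_iff]
      rw [Complex.ofReal_eq_zero]
      positivity
  have h3 := h1.comp h2
  refine h3.congr (fun n => ?_)
  simp only [Function.comp_apply, arc, zero_add, smul_eq_mul]
  have hn : ((n : ℂ) + 1) ≠ 0 := by exact_mod_cast Nat.succ_ne_zero n
  push_cast
  have e1 : (1 : ℂ) / ((n : ℂ) + 1) * ((s : ℂ) * I) = (s : ℂ) / ((n : ℂ) + 1) * I := by ring
  rw [e1]
  simp
  field_simp

theorem halfplane_V {V : ℂ → ℝ} {C a : ℝ} (ha : 1 < a)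
    (hc : ContinuousOn V {z | 0 ≤ z.im}) (ht : ∀ z, 0 < z.im → Touch V z)
    (hb : ∀ z, 0 ≤ z.im → |V z| ≤ C * (1 + ‖z‖) ^ (-a)) : 0 ≤ ∫ u : ℝ, V u := by
  have hC : 0 ≤ C := by
    have := hb 0 (by simp)
    simp at this
    exact (abs_nonneg _).trans this
  -- the functions on circles
  let g : ℕ → ℝ → ℝ := fun n => Set.indicator (Ioc (-(π * ((n : ℝ) + 1))) (π * ((n : ℝ) + 1)))
    (fun s => V (arc ((n : ℝ) + 1) s))
  have harc : ∀ R : ℝ, Continuous (arc R) := by
    intro R; unfold arc; fun_prop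
  have hcontn : ∀ n : ℕ, Continuous fun s => V (arc ((n : ℝ) + 1) s) := by
    intro n
    exact hc.comp_continuous (harc _) (fun s => arc_im_nonneg (by positivity))
  have hsub : ∀ n : ℕ, 2 * π * (((n : ℝ) + 1) * V (I * ((n : ℝ) + 1 : ℝ))) ≤ ∫ s, g n s := by
    intro n
    set R : ℝ := (n : ℝ) + 1 with hRdef
    have hR : 0 < R := by positivity
    have h1 : V (I * R) ≤ circleAverage V (I * R) R := by
      apply sub_mean hR
      · apply hc.mono
        intro z hz
        rw [mem_closedBall, dist_eq_norm] at hz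
        have h2 : |(z - I * R).im| ≤ ‖z - I * R‖ := Complex.abs_im_le_norm _
        have h3 : (z - I * R).im = z.im - R := by simp
        rw [h3] at h2
        have h4 := (abs_le.mp (h2.trans hz)).1
        show 0 ≤ z.im
        linarith
      · intro z hz
        apply ht
        rw [mem_ball, dist_eq_norm] at hz
        have h2 : |(z - I * R).im| ≤ ‖z - I * R‖ := Complex.abs_im_le_norm _
        have h3 : (z - I * R).im = z.im - R := by simp
        rw [h3] at h2
        have h4 := (abs_lt.mp (lt_of_le_of_lt h2 hz)).1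
        linarith
    have h2 : circleAverage V (I * R) R = (2 * π)⁻¹ * (R⁻¹ * ∫ s, g n s) := by
      rw [circleAverage_eq_integral_add (-(π / 2) - π), smul_eq_mul]
      congr 1
      have e1 : (∫ θ in (0 : ℝ)..2 * π, V (circleMap (I * R) R (θ + (-(π / 2) - π)))) =
          ∫ θ in (-π)..π, V (arc R (R * θ)) := by
        have := intervalIntegral.integral_comp_sub_right (fun θ => V (arc R (R * θ))) (a := 0)
          (b := 2 * π) π
        rw [show (0 : ℝ) - π = -π by ring, show 2 * π - π = π by ring] at this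
        rw [← this]
        apply intervalIntegral.integral_congr
        intro θ _
        simp only
        rw [arc_eq]
        congr 2
        field_simp
        ring
      rw [e1]
      have e2 := intervalIntegral.integral_comp_mul_left (fun s => V (arc R s)) (a := -π) (b := π)
        hR.ne'
      rw [e2, smul_eq_mul]
      congr 1
      rw [intervalIntegral.integral_of_le (by nlinarith [Real.pi_pos]), ← integral_indicator
        measurableSet_Ioc]
      congr 1
      ext s
      simp only [g]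
      congr 2
      · ring
      · ring
    rw [h2] at h1
    have hpi := Real.pi_pos
    have h3 : 2 * π * (R * ((2 * π)⁻¹ * (R⁻¹ * ∫ s, g n s))) = ∫ s, g n s := by
      field_simp
    rw [← h3]
    apply mul_le_mul_of_nonneg_left _ (by positivity)
    exact mul_le_mul_of_nonneg_left h1 hR.le
  have hlim : Tendsto (fun n => ∫ s, g n s) atTop (𝓝 (∫ s : ℝ, V s)) := by
    apply tendsto_integral_of_dominated_convergence (fun s => C * 2 ^ a * (1 + ‖s‖) ^ (-a))
    · intro n
      exact ((hcontn n).measurable.indicator measurableSet_Ioc).aestronglyMeasurable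
    · apply Integrable.const_mul
      apply integrable_one_add_norm
      simpa using ha
    · intro n
      filter_upwards with s
      simp only [g]
      by_cases hs : s ∈ Ioc (-(π * ((n : ℝ) + 1))) (π * ((n : ℝ) + 1))
      · rw [indicator_of_mem hs, Real.norm_eq_abs, Real.norm_eq_abs]
        refine (hb _ (arc_im_nonneg (by positivity))).trans ?_
        rw [mul_assoc]
        apply mul_le_mul_of_nonneg_left _ hC
        have h1 : |s| / 2 ≤ ‖arc ((n : ℝ) + 1) s‖ := by
          apply norm_arc_ge (by positivity)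
          rw [abs_le]
          exact ⟨hs.1.le, hs.2⟩
        have h2 : (1 + |s|) / 2 ≤ 1 + ‖arc ((n : ℝ) + 1) s‖ := by linarith
        have h3 : (1 + ‖arc ((n : ℝ) + 1) s‖) ^ (-a) ≤ ((1 + |s|) / 2) ^ (-a) :=
          Real.rpow_le_rpow_of_nonpos (by positivity) h2 (by linarith)
        refine h3.trans (le_of_eq ?_)
        rw [Real.div_rpow (by positivity) (by norm_num), Real.rpow_neg (by norm_num : (0:ℝ) ≤ 2)]
        rw [div_inv_eq_mul, mul_comm]
      · rw [indicator_of_notMem hs]
        simp
        positivity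
    · filter_upwards with s
      have h1 : ∀ᶠ n : ℕ in atTop, s ∈ Ioc (-(π * ((n : ℝ) + 1))) (π * ((n : ℝ) + 1)) := by
        obtain ⟨N, hN⟩ := exists_nat_gt |s|
        filter_upwards [eventually_ge_atTop N] with n hn
        have hn' : (N : ℝ) ≤ n := by exact_mod_cast hn
        have h3 := Real.pi_gt_three
        have h4 : |s| < π * ((n : ℝ) + 1) := by nlinarith [abs_nonneg s]
        have h5 := abs_lt.mp h4
        exact ⟨h5.1, h5.2.le⟩
      have h2 : Tendsto (fun n : ℕ => V (arc ((n : ℝ) + 1) s)) atTop (𝓝 (V s)) := by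
        have h3 : ContinuousWithinAt V {z | 0 ≤ z.im} (s : ℂ) := hc _ (by simp)
        apply h3.tendsto.comp
        rw [tendsto_nhdsWithin_iff]
        exact ⟨tendsto_arc s, Filter.Eventually.of_forall fun n => arc_im_nonneg (by positivity)⟩
      refine h2.congr' ?_
      filter_upwards [h1] with n hn
      simp only [g]
      rw [indicator_of_mem hn]
  -- lower bound
  have hlow : ∀ n : ℕ, -(2 * π * C * ((n : ℝ) + 1) ^ (1 - a)) ≤ ∫ s, g n s := by
    intro n
    refine le_trans ?_ (hsub n)
    set R : ℝ := (n : ℝ) + 1 with hRdef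
    have hR : 0 < R := by positivity
    have h1 := hb (I * R) (by simp; exact hR.le)
    have h2 : ‖I * (R : ℂ)‖ = R := by simp [abs_of_pos hR]
    rw [h2] at h1
    have h3 : (1 + R) ^ (-a) ≤ R ^ (-a) :=
      Real.rpow_le_rpow_of_nonpos hR (by linarith) (by linarith)
    have h4 : -(C * R ^ (-a)) ≤ V (I * R) := by
      have := (abs_le.mp h1).1
      have h5 := mul_le_mul_of_nonneg_left h3 hC
      linarith
    have h6 : R ^ (1 - a) = R * R ^ (-a) := by
      rw [show (1 : ℝ) - a = 1 + -a by ring, Real.rpow_add hR, Real.rpow_one]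
    rw [h6]
    have h7 : 2 * π * (R * (-(C * R ^ (-a)))) ≤ 2 * π * (R * V (I * R)) := by
      apply mul_le_mul_of_nonneg_left _ (by positivity)
      exact mul_le_mul_of_nonneg_left h4 hR.le
    refine le_trans (le_of_eq ?_) h7
    ring
  have hz : Tendsto (fun n : ℕ => -(2 * π * C * ((n : ℝ) + 1) ^ (1 - a))) atTop (𝓝 0) := by
    have h1 : Tendsto (fun x : ℝ => x ^ (-(a - 1))) atTop (𝓝 0) :=
      tendsto_rpow_neg_atTop (by linarith)
    have h2 : Tendsto (fun n : ℕ => (n : ℝ) + 1) atTop atTop :=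
      tendsto_atTop_add_const_right _ _ tendsto_natCast_atTop_atTop
    have h3 := (h1.comp h2).const_mul (-(2 * π * C))
    rw [mul_zero] at h3
    refine h3.congr fun n => ?_
    simp only [Function.comp_apply]
    rw [show -(a - 1) = 1 - a by ring]
    ring
  exact le_of_tendsto_of_tendsto' hz hlim hlow

end MPc281p
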