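import Pool.Agent.Lib_MP_c281c2_p.Dens

/-!
# MP_c281c2_an, file P2: local touching implies the sub mean value property on discs
-/

namespace MPc281p

open Complex Metric Set Real

/-- `W` is touched from below at `z0` by the real part of a holomorphic function, up to an error
of third order. -/
def Touch (W : ℂ → ℝ) (z0 : ℂ) : Prop :=
  ∃ (F : ℂ → ℂ) (r K : ℝ), 0 < r ∧ DifferentiableOn ℂ F (ball z0 r) ∧ (F z0).re = W z0 ∧
    ∀ z ∈ ball z0 r, (F z).re - K * ‖z - z0‖ ^ 3 ≤ W z

theorem max_principle {V : ℂ → ℝ} {c : ℂ} {R : ℝ} (hR : 0 < R)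
    (hV : ContinuousOn V (closedBall c R)) (ht : ∀ z ∈ ball c R, Touch V z)
    {G : ℂ → ℂ} (hG : Differentiable ℂ G) {ε : ℝ}
    (hb : ∀ z ∈ sphere c R, V z ≤ (G z).re + ε) :
    ∀ z ∈ closedBall c R, V z ≤ (G z).re + ε := by
  have key : ∀ δ : ℝ, 0 < δ → ∀ z ∈ closedBall c R, V z - (G z).re + δ * ‖z - c‖ ^ 2 ≤
      ε + δ * R ^ 2 := by
    intro δ hδ
    have hGc : Continuous G := hG.continuous
    have hgc : ContinuousOn (fun z => V z - (G z).re + δ * ‖z - c‖ ^ 2) (closedBall c R) := by
      apply ContinuousOn.add
      · exact hV.sub (Complex.continuous_re.comp hGc).continuousOn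
      · exact (by fun_prop : Continuous fun z : ℂ => δ * ‖z - c‖ ^ 2).continuousOn
    obtain ⟨z0, hz0, hmax⟩ := (isCompact_closedBall c R).exists_isMaxOn
      ⟨c, mem_closedBall_self hR.le⟩ hgc
    have hmax' : ∀ z ∈ closedBall c R, V z - (G z).re + δ * ‖z - c‖ ^ 2 ≤
        V z0 - (G z0).re + δ * ‖z0 - c‖ ^ 2 := fun z hz => hmax hz
    by_cases hs : z0 ∈ sphere c R
    · intro z hz
      refine (hmax' z hz).trans ?_
      have h1 := hb z0 hs
      have h2 : ‖z0 - c‖ = R := by rw [← dist_eq_norm]; exact hs
      rw [h2]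
      linarith
    · exfalso
      have hz0b : z0 ∈ ball c R := by
        rw [mem_ball]
        exact lt_of_le_of_ne hz0 hs
      obtain ⟨F, r, K, hr, hF, hF0, hFW⟩ := ht z0 hz0b
      obtain ⟨ρ1, hρ1, hρ1'⟩ := Metric.isOpen_iff.mp isOpen_ball z0 hz0b
      -- choose the radius
      obtain ⟨ρ, hρ0, hρr, hρρ, hρK⟩ : ∃ ρ : ℝ, 0 < ρ ∧ ρ < r ∧ ρ < ρ1 ∧ |K| * ρ < δ := by
        refine ⟨min (min (r / 2) (ρ1 / 2)) (δ / (2 * (|K| + 1))), by positivity, ?_, ?_, ?_⟩
        · have : min (min (r / 2) (ρ1 / 2)) (δ / (2 * (|K| + 1))) ≤ r / 2 :=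
            (min_le_left _ _).trans (min_le_left _ _)
          linarith
        · have : min (min (r / 2) (ρ1 / 2)) (δ / (2 * (|K| + 1))) ≤ ρ1 / 2 :=
            (min_le_left _ _).trans (min_le_right _ _)
          linarith
        · have h1 : min (min (r / 2) (ρ1 / 2)) (δ / (2 * (|K| + 1))) ≤ δ / (2 * (|K| + 1)) :=
            min_le_right _ _
          have h2 : 0 ≤ |K| := abs_nonneg K
          calc |K| * min (min (r / 2) (ρ1 / 2)) (δ / (2 * (|K| + 1)))
              ≤ |K| * (δ / (2 * (|K| + 1))) := mul_le_mul_of_nonneg_left h1 h2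
            _ < δ := by
                rw [mul_div_assoc', div_lt_iff₀ (by positivity)]
                nlinarith
      have hcb : closedBall z0 ρ ⊆ ball z0 r := closedBall_subset_ball hρr
      have hcb1 : closedBall z0 ρ ⊆ ball c R := (closedBall_subset_ball hρρ).trans hρ1'
      let Ft : ℂ → ℂ := fun z => F z - G z + 2 * δ * ((starRingEnd ℂ) (z0 - c) * (z - z0))
      have hFt : DifferentiableOn ℂ Ft (ball z0 r) := by
        apply DifferentiableOn.add
        · exact hF.sub hG.differentiableOn
        · exact (by fun_prop : Differentiable ℂ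
            fun z : ℂ => 2 * (δ : ℂ) * ((starRingEnd ℂ) (z0 - c) * (z - z0))).differentiableOn
      have hdc : DiffContOnCl ℂ Ft (ball z0 |ρ|) := by
        rw [abs_of_pos hρ0]
        exact (hFt.mono hcb).diffContOnCl_ball subset_rfl
      have hav := hdc.circleAverage
      have hCI : CircleIntegrable Ft z0 ρ := by
        apply ContinuousOn.circleIntegrable hρ0.le
        exact hFt.continuousOn.mono (sphere_subset_closedBall.trans hcb)
      have hre : circleAverage (fun z => (Ft z).re) z0 ρ = (Ft z0).re := by
        rw [← hav]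
        have := (Complex.reCLM).circleAverage_comp_comm hCI
        simpa [Function.comp_def] using this
      have hCIre : CircleIntegrable (fun z => (Ft z).re) z0 ρ := by
        apply ContinuousOn.circleIntegrable hρ0.le
        exact Complex.continuous_re.comp_continuousOn
          (hFt.continuousOn.mono (sphere_subset_closedBall.trans hcb))
      have hle : circleAverage (fun z => (Ft z).re) z0 ρ ≤
          V z0 - (G z0).re - (δ * ρ ^ 2 - K * ρ ^ 3) := by
        apply circleAverage_mono_on_of_le_circle hCIre
        intro z hz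
        rw [abs_of_pos hρ0] at hz
        have hzn : ‖z - z0‖ = ρ := by rw [← dist_eq_norm]; exact hz
        have hzc : z ∈ closedBall z0 ρ := sphere_subset_closedBall hz
        have h1 := hFW z (hcb hzc)
        have h2 := hmax' z (ball_subset_closedBall (hcb1 hzc))
        have h3 : ‖z - c‖ ^ 2 = ‖z0 - c‖ ^ 2 +
            2 * ((starRingEnd ℂ) (z0 - c) * (z - z0)).re + ρ ^ 2 := by
          rw [← hzn, ← Complex.normSq_eq_norm_sq, ← Complex.normSq_eq_norm_sq,
            ← Complex.normSq_eq_norm_sq, Complex.normSq_apply, Complex.normSq_apply,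
            Complex.normSq_apply]
          simp only [Complex.sub_re, Complex.sub_im, Complex.mul_re, Complex.conj_re,
            Complex.conj_im]
          ring
        have h4 : (Ft z).re = (F z).re - (G z).re +
            2 * δ * ((starRingEnd ℂ) (z0 - c) * (z - z0)).re := by
          simp only [Ft, Complex.add_re, Complex.sub_re]
          congr 1
          rw [show (2 * (δ : ℂ) * ((starRingEnd ℂ) (z0 - c) * (z - z0))) =
            ((2 * δ : ℝ) : ℂ) * ((starRingEnd ℂ) (z0 - c) * (z - z0)) by push_cast; ring]
          rw [Complex.re_ofReal_mul]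
        rw [hzn] at h1
        rw [h3] at h2
        rw [h4]
        nlinarith
      have hFt0 : (Ft z0).re = V z0 - (G z0).re := by
        simp [Ft, hF0]
      rw [hre, hFt0] at hle
      have h5 : K * ρ ^ 3 < δ * ρ ^ 2 := by
        calc K * ρ ^ 3 ≤ |K| * ρ ^ 3 := by
              apply mul_le_mul_of_nonneg_right (le_abs_self K); positivity
          _ = (|K| * ρ) * ρ ^ 2 := by ring
          _ < δ * ρ ^ 2 := by
              apply mul_lt_mul_of_pos_right hρK; positivity
      linarith
  intro z hz
  by_contra hcon
  push Not at hcon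
  have h1 := key ((V z - (G z).re - ε) / (2 * R ^ 2)) (by
    apply div_pos (by linarith); positivity) z hz
  have h2 : (V z - (G z).re - ε) / (2 * R ^ 2) * R ^ 2 = (V z - (G z).re - ε) / 2 := by
    field_simp
  have h3 : 0 ≤ (V z - (G z).re - ε) / (2 * R ^ 2) * ‖z - c‖ ^ 2 := by
    apply mul_nonneg
    · apply div_nonneg (by linarith); positivity
    · positivity
  rw [h2] at h1
  linarith

/-- Sub mean value property on every disc. -/
theorem sub_mean {V : ℂ → ℝ} {c : ℂ} {R : ℝ} (hR : 0 < R)
    (hV : ContinuousOn V (closedBall c R)) (ht : ∀ z ∈ ball c R, Touch V z) :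
    V c ≤ circleAverage V c R := by
  have hVs : ContinuousOn V (sphere c R) := hV.mono sphere_subset_closedBall
  have hVi : CircleIntegrable V c R := hVs.circleIntegrable hR.le
  apply le_of_forall_pos_le_add
  intro ε hε
  obtain ⟨G, hG, hGV⟩ := exists_entire_re_near hR hVs (half_pos hε)
  have h1 : ∀ z ∈ sphere c R, V z ≤ (G z).re + ε / 2 := by
    intro z hz
    have := abs_le.mp (hGV z hz)
    linarith [this.2]
  have h2 := max_principle hR hV ht hG h1 c (mem_closedBall_self hR.le)
  have hGi : CircleIntegrable G c R := hG.continuous.continuousOn.circleIntegrable hR.le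
  have hav : circleAverage G c R = G c := hG.diffContOnCl.circleAverage
  have hre : circleAverage (fun z => (G z).re) c R = (G c).re := by
    rw [← hav]
    have := (Complex.reCLM).circleAverage_comp_comm hGi
    simpa [Function.comp_def] using this
  have hGre : CircleIntegrable (fun z => (G z).re) c R :=
    (Complex.continuous_re.comp hG.continuous).continuousOn.circleIntegrable hR.le
  have h3 : circleAverage (fun z => (G z).re) c R ≤ circleAverage (fun z => V z + ε / 2) c R := by
    apply circleAverage_mono hGre
    · exact hVi.add (circleIntegrable_const _ _ _)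
    · intro z hz
      rw [abs_of_pos hR] at hz
      have := abs_le.mp (hGV z hz)
      linarith [this.1]
  have h4 : circleAverage (fun z => V z + ε / 2) c R = circleAverage V c R + ε / 2 := by
    have := circleAverage_fun_add hVi (circleIntegrable_const (ε / 2) c R)
    rw [this, circleAverage_const]
  rw [h4, hre] at h3
  linarith

end MPc281p
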